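import Mathlib

/-!
# A weighted Siegel lemma, by the pigeonhole principle
-/

namespace Pool.Agent.H61.Fac

open Polynomial Finset

/-- The value of row `m`. -/
def row {k d : ℕ} (Φ : Fin k → ℕ → ℤ) (x : Fin k × Fin (d + 1) → ℤ) (m : ℕ) : ℤ :=
  ∑ p, if (p.2 : ℕ) ≤ m then x p * Φ p.1 (m - p.2) else 0

lemma row_sub {k d : ℕ} (Φ : Fin k → ℕ → ℤ) (x y : Fin k × Fin (d + 1) → ℤ) (m : ℕ) :
    row Φ (x - y) m = row Φ x m - row Φ y m := by
  unfold row
  rw [← Finset.sum_sub_distrib]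
  refine Finset.sum_congr rfl fun p _ => ?_
  split_ifs
  · rw [Pi.sub_apply]; ring
  · ring

/-- Weighted Siegel lemma: coefficients. -/
theorem siegel_row {k d E : ℕ} (Φ : Fin k → ℕ → ℤ) (θ B : ℕ) (R : ℕ → ℕ)
    (hR : ∀ x : Fin k × Fin (d + 1) → ℤ, (∀ p, |x p| ≤ B * (θ : ℤ) ^ (p.2 : ℕ)) →
      ∀ m, |row Φ x m| ≤ R m)
    (hcount : ∏ m ∈ range E, (2 * R m + 1)
      < (∏ e ∈ range (d + 1), (B * θ ^ e + 1)) ^ k) :
    ∃ x : Fin k × Fin (d + 1) → ℤ, x ≠ 0 ∧ (∀ p, |x p| ≤ B * (θ : ℤ) ^ (p.2 : ℕ)) ∧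
      ∀ m < E, row Φ x m = 0 := by
  classical
  set S : Finset (Fin k × Fin (d + 1) → ℤ) :=
    Fintype.piFinset fun p => Finset.Icc (0 : ℤ) ((B * θ ^ (p.2 : ℕ) : ℕ) : ℤ) with hS
  set T : Finset (Fin E → ℤ) :=
    Fintype.piFinset fun m => Finset.Icc (-(R m : ℤ)) (R m : ℤ) with hT
  have hScard : S.card = (∏ e ∈ range (d + 1), (B * θ ^ e + 1)) ^ k := by
    rw [hS, Fintype.card_piFinset]
    simp only [Int.card_Icc, sub_zero]
    have h1 : ∀ p : Fin k × Fin (d + 1), (((B * θ ^ (p.2 : ℕ) : ℕ) : ℤ) + 1).toNat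
        = B * θ ^ (p.2 : ℕ) + 1 := fun p => by
      rw [← Nat.cast_add_one, Int.toNat_natCast]
    simp only [h1]
    rw [Fintype.prod_prod_type]
    simp only [Finset.prod_const, Finset.card_univ, Fintype.card_fin]
    congr 1
    exact Fin.prod_univ_eq_prod_range (fun e => B * θ ^ e + 1) (d + 1)
  have hTcard : T.card = ∏ m ∈ range E, (2 * R m + 1) := by
    rw [hT, Fintype.card_piFinset]
    simp only [Int.card_Icc]
    rw [← Fin.prod_univ_eq_prod_range (fun m => 2 * R m + 1) E]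
    refine Finset.prod_congr rfl fun m _ => ?_
    have : ((R m : ℤ) + 1 - -(R m : ℤ)) = ((2 * R m + 1 : ℕ) : ℤ) := by
      push_cast; ring
    rw [this, Int.toNat_natCast]
  have hmaps : ∀ x ∈ S, (fun m : Fin E => row Φ x m) ∈ T := by
    intro x hx
    rw [hS, Fintype.mem_piFinset] at hx
    rw [hT, Fintype.mem_piFinset]
    intro m
    rw [Finset.mem_Icc, ← abs_le]
    refine hR x (fun p => ?_) m
    have h1 := Finset.mem_Icc.1 (hx p)
    rw [abs_of_nonneg h1.1]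
    refine h1.2.trans (le_of_eq ?_)
    push_cast
    rfl
  obtain ⟨x, hx, y, hy, hxy, hrow⟩ := Finset.exists_ne_map_eq_of_card_lt_of_maps_to
    (by rw [hScard, hTcard]; exact hcount) hmaps
  refine ⟨x - y, sub_ne_zero.2 hxy, fun p => ?_, fun m hm => ?_⟩
  · have h1 := Finset.mem_Icc.1 (Fintype.mem_piFinset.1 hx p)
    have h2 := Finset.mem_Icc.1 (Fintype.mem_piFinset.1 hy p)
    rw [Pi.sub_apply, abs_le]
    push_cast at h1 h2 ⊢
    constructor <;> linarith [h1.1, h1.2, h2.1, h2.2]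
  · rw [row_sub, sub_eq_zero]
    exact congrFun hrow ⟨m, hm⟩

/-- Weighted Siegel lemma for power series. -/
theorem siegel_ps {k d E : ℕ} (Φ : Fin k → PowerSeries ℤ) (θ B : ℕ) (R : ℕ → ℕ)
    (hR : ∀ x : Fin k × Fin (d + 1) → ℤ, (∀ p, |x p| ≤ B * (θ : ℤ) ^ (p.2 : ℕ)) →
      ∀ m, |row (fun i m => PowerSeries.coeff m (Φ i)) x m| ≤ R m)
    (hcount : ∏ m ∈ range E, (2 * R m + 1)
      < (∏ e ∈ range (d + 1), (B * θ ^ e + 1)) ^ k) :
    ∃ a : Fin k → ℤ[X], a ≠ 0 ∧ (∀ i, (a i).natDegree ≤ d) ∧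
      (∀ i e, |(a i).coeff e| ≤ B * (θ : ℤ) ^ e) ∧
      ∀ m < E, PowerSeries.coeff m (∑ i, (a i : PowerSeries ℤ) * Φ i) = 0 := by
  classical
  obtain ⟨x, hx0, hx, hrow⟩ := siegel_row (d := d) (E := E)
    (fun i m => PowerSeries.coeff m (Φ i)) θ B R hR hcount
  set c : Fin k → ℕ → ℤ := fun i e => if h : e < d + 1 then x (i, ⟨e, h⟩) else 0 with hc
  have hcoef : ∀ i e, (∑ e' ∈ range (d + 1), C (c i e') * X ^ e' : ℤ[X]).coeff e = c i e := by
    intro i e
    rw [finsetSum_coeff]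
    simp only [coeff_C_mul_X_pow]
    by_cases he : e < d + 1
    · rw [Finset.sum_eq_single e (fun b _ hb => if_neg (Ne.symm hb))
        (fun h => absurd (Finset.mem_range.2 he) h), if_pos rfl]
    · rw [Finset.sum_eq_zero (fun b hb => if_neg (by have := Finset.mem_range.1 hb; omega))]
      rw [hc]
      simp only [dif_neg he]
  refine ⟨fun i => ∑ e ∈ range (d + 1), C (c i e) * X ^ e, ?_, ?_, ?_, ?_⟩
  · intro h0
    apply hx0
    funext p
    have h1 := congrArg (fun f : ℤ[X] => f.coeff (p.2 : ℕ)) (congrFun h0 p.1)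
    simp only [hcoef, Pi.zero_apply, coeff_zero] at h1
    rw [hc] at h1
    simp only [dif_pos p.2.2] at h1
    exact h1
  · intro i
    rw [natDegree_le_iff_coeff_eq_zero]
    intro e he
    rw [hcoef, hc]
    simp only
    rw [dif_neg (by omega)]
  · intro i e
    simp only [hcoef]
    rw [hc]
    simp only
    split_ifs with h
    · exact hx (i, ⟨e, h⟩)
    · rw [abs_zero]; positivity
  · intro m hm
    rw [map_sum, ← hrow m hm]
    unfold row
    rw [Fintype.sum_prod_type]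
    refine Finset.sum_congr rfl fun i _ => ?_
    rw [PowerSeries.coeff_mul, Finset.Nat.sum_antidiagonal_eq_sum_range_succ_mk]
    simp only [Polynomial.coeff_coe, hcoef]
    have h1 : ∀ e : Fin (d + 1), (if (e : ℕ) ≤ m then x (i, e) * PowerSeries.coeff (m - e) (Φ i) else 0)
        = (fun e : ℕ => if e ≤ m then c i e * PowerSeries.coeff (m - e) (Φ i) else 0) e := by
      intro e
      simp only
      split_ifs
      · rw [hc]; simp only [dif_pos e.2]
      · rfl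
    rw [Finset.sum_congr rfl fun e _ => h1 e,
      Fin.sum_univ_eq_sum_range (fun e : ℕ => if e ≤ m then c i e * PowerSeries.coeff (m - e) (Φ i) else 0)
        (d + 1)]
    rw [← Finset.sum_filter]
    -- both sides as sums over `range`
    have h2 : (range (d + 1)).filter (fun e => e ≤ m) = (range (m + 1)).filter (fun e => e < d + 1) := by
      ext e
      simp only [Finset.mem_filter, Finset.mem_range]
      omega
    rw [h2, Finset.sum_filter]
    refine Finset.sum_congr rfl fun e _ => ?_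
    split_ifs with h
    · rfl
    · rw [hc]; simp only [dif_neg h, zero_mul]

lemma row_bound {k d : ℕ} (Φ : Fin k → ℕ → ℤ) (G W B : ℕ)
    (hΦ : ∀ i m, |Φ i m| ≤ G * (W : ℤ) ^ m) (x : Fin k × Fin (d + 1) → ℤ)
    (hx : ∀ p, |x p| ≤ B * ((2 * W : ℕ) : ℤ) ^ (p.2 : ℕ)) (m : ℕ) :
    |row Φ x m| ≤ ((2 * k * B * G * (2 * W) ^ m : ℕ) : ℤ) := by
  unfold row
  refine (Finset.abs_sum_le_sum_abs _ _).trans ?_
  rw [Fintype.sum_prod_type]
  have h1 : ∀ i : Fin k, ∑ e : Fin (d + 1),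
      |if (e : ℕ) ≤ m then x (i, e) * Φ i (m - e) else 0| ≤ 2 * B * G * (2 * (W : ℤ)) ^ m := by
    intro i
    have h2 : ∀ e : Fin (d + 1), |if (e : ℕ) ≤ m then x (i, e) * Φ i (m - e) else 0|
        ≤ (fun e : ℕ => if e ≤ m then B * G * (W : ℤ) ^ m * 2 ^ e else 0) e := by
      intro e
      simp only
      split_ifs with h
      · rw [abs_mul]
        calc |x (i, e)| * |Φ i (m - e)|
            ≤ (B * ((2 * W : ℕ) : ℤ) ^ (e : ℕ)) * (G * (W : ℤ) ^ (m - e)) :=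
              mul_le_mul (hx (i, e)) (hΦ _ _) (abs_nonneg _) (by positivity)
          _ = B * G * ((W : ℤ) ^ (e : ℕ) * (W : ℤ) ^ (m - e)) * 2 ^ (e : ℕ) := by
              push_cast; ring
          _ = B * G * (W : ℤ) ^ m * 2 ^ (e : ℕ) := by rw [← pow_add, Nat.add_sub_cancel' h]
      · rw [abs_zero]
    refine (Finset.sum_le_sum fun e _ => h2 e).trans ?_
    rw [Fin.sum_univ_eq_sum_range
      (fun e : ℕ => if e ≤ m then (B : ℤ) * G * (W : ℤ) ^ m * 2 ^ e else 0) (d + 1),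
      ← Finset.sum_filter]
    have h3 : (range (d + 1)).filter (fun e => e ≤ m) ⊆ range (m + 1) := by
      intro e he
      rw [Finset.mem_filter] at he
      exact Finset.mem_range.2 (Nat.lt_succ_of_le he.2)
    refine (Finset.sum_le_sum_of_subset_of_nonneg h3 fun e _ _ => by positivity).trans ?_
    rw [← Finset.mul_sum]
    have h4 : ∑ e ∈ range (m + 1), (2 : ℤ) ^ e ≤ 2 * 2 ^ m := by
      have h5 := Nat.geomSum_eq (le_refl 2) (m + 1)
      have h6 : ∑ e ∈ range (m + 1), 2 ^ e ≤ 2 * 2 ^ m := by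
        rw [h5, pow_succ]
        omega
      exact_mod_cast h6
    calc (B : ℤ) * G * (W : ℤ) ^ m * ∑ e ∈ range (m + 1), (2 : ℤ) ^ e
        ≤ (B : ℤ) * G * (W : ℤ) ^ m * (2 * 2 ^ m) :=
          mul_le_mul_of_nonneg_left h4 (by positivity)
      _ = 2 * B * G * (2 * (W : ℤ)) ^ m := by rw [mul_pow]; ring
  refine (Finset.sum_le_card_nsmul _ _ _ fun i _ => h1 i).trans (le_of_eq ?_)
  rw [Finset.card_univ, Fintype.card_fin, nsmul_eq_mul]
  push_cast
  ring

/-- The count: there are more coefficient vectors than values. -/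
lemma count_lt (u M W : ℕ) (hu : 1 ≤ u) (hM : 1 ≤ M) (hW : 1 ≤ W) (B : ℕ)
    (hB : B = (21 * M) ^ 2 * (2 * W) ^ (4 * u)) :
    ∏ m ∈ range (12 * u), (2 * (2 * 5 * B * M * (2 * W) ^ m) + 1)
      < (∏ e ∈ range (4 * u + 1), (B * (2 * W) ^ e + 1)) ^ 5 := by
  have hB1 : 1 ≤ B := by
    rw [hB]; exact Nat.one_le_iff_ne_zero.2 (by positivity)
  set θ := 2 * W with hθ
  have hθ1 : 1 ≤ θ := by omega
  have h1 : ∏ m ∈ range (12 * u), (2 * (2 * 5 * B * M * θ ^ m) + 1)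
      ≤ (21 * M * B) ^ (12 * u) * θ ^ (∑ m ∈ range (12 * u), m) := by
    rw [← Finset.prod_pow_eq_pow_sum, ← Finset.card_range (12 * u), ← Finset.prod_const,
      Finset.card_range, ← Finset.prod_mul_distrib]
    refine Finset.prod_le_prod (fun _ _ => Nat.zero_le _) fun m _ => ?_
    have h2 : 1 ≤ B * M * θ ^ m := Nat.one_le_iff_ne_zero.2 (by positivity)
    nlinarith
  have h2 : B ^ (4 * u + 1) * θ ^ (∑ e ∈ range (4 * u + 1), e)
      < ∏ e ∈ range (4 * u + 1), (B * θ ^ e + 1) := by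
    rw [← Finset.prod_pow_eq_pow_sum]
    have h3 : B ^ (4 * u + 1) = ∏ _e ∈ range (4 * u + 1), B := by
      rw [Finset.prod_const, Finset.card_range]
    rw [h3, ← Finset.prod_mul_distrib]
    refine Finset.prod_lt_prod_of_nonempty (fun e _ => by positivity) (fun e _ => by omega) ?_
    exact ⟨0, Finset.mem_range.2 (by omega)⟩
  have hs1 : (∑ m ∈ range (12 * u), m) = 72 * u * u - 6 * u := by
    rw [Finset.sum_range_id]
    obtain ⟨v, rfl⟩ : ∃ v, u = v + 1 := ⟨u - 1, by omega⟩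
    have : 12 * (v + 1) - 1 = 12 * v + 11 := by omega
    rw [this]
    have h5 : 12 * (v + 1) * (12 * v + 11) = 2 * (72 * v * v + 138 * v + 66) := by ring
    rw [h5, Nat.mul_div_cancel_left _ (by norm_num)]
    have h6 : 72 * (v + 1) * (v + 1) = 72 * v * v + 138 * v + 66 + 6 * (v + 1) := by ring
    rw [h6]
    omega
  have hs2 : (∑ e ∈ range (4 * u + 1), e) = 8 * u * u + 2 * u := by
    rw [Finset.sum_range_id]
    have : 4 * u + 1 - 1 = 4 * u := by omega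
    rw [this]
    have h5 : (4 * u + 1) * (4 * u) = 2 * (8 * u * u + 2 * u) := by ring
    rw [h5, Nat.mul_div_cancel_left _ (by norm_num)]
  rw [hs1] at h1
  rw [hs2] at h2
  refine lt_of_le_of_lt h1 ?_
  refine lt_of_le_of_lt ?_ (Nat.pow_lt_pow_left h2 (by norm_num))
  rw [mul_pow (21 * M) B, mul_pow (B ^ (4 * u + 1)), ← pow_mul, ← pow_mul]
  have e1 : (4 * u + 1) * 5 = 12 * u + (8 * u + 5) := by ring
  rw [e1, pow_add B]
  have hkey : (21 * M) ^ (12 * u) * θ ^ (72 * u * u - 6 * u)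
      ≤ B ^ (8 * u + 5) * θ ^ ((8 * u * u + 2 * u) * 5) := by
    rw [hB, mul_pow ((21 * M) ^ 2), ← pow_mul, ← pow_mul,
      mul_assoc ((21 * M) ^ (2 * (8 * u + 5))), ← pow_add]
    refine Nat.mul_le_mul (Nat.pow_le_pow_right (by omega) (by omega))
      (Nat.pow_le_pow_right hθ1 ?_)
    have e2 : 4 * u * (8 * u + 5) + (8 * u * u + 2 * u) * 5 = 72 * u * u + 30 * u := by ring
    omega
  calc (21 * M) ^ (12 * u) * B ^ (12 * u) * θ ^ (72 * u * u - 6 * u)
      = B ^ (12 * u) * ((21 * M) ^ (12 * u) * θ ^ (72 * u * u - 6 * u)) := by ring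
    _ ≤ B ^ (12 * u) * (B ^ (8 * u + 5) * θ ^ ((8 * u * u + 2 * u) * 5)) :=
        Nat.mul_le_mul_left _ hkey
    _ = B ^ (12 * u) * B ^ (8 * u + 5) * θ ^ ((8 * u * u + 2 * u) * 5) := by ring

/-- (A) weighted Siegel lemma -/
theorem siegel (u M W : ℕ) (hu : 1 ≤ u) (hM : 1 ≤ M) (hW : 1 ≤ W) (Φ : Fin 5 → PowerSeries ℤ)
    (hΦ : ∀ i e, |PowerSeries.coeff e (Φ i)| ≤ (M : ℤ) * (W : ℤ) ^ e) :
    ∃ a : Fin 5 → ℤ[X], (∃ i, a i ≠ 0) ∧ (∀ i, (a i).natDegree ≤ 4 * u) ∧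
      (∀ i e, |(a i).coeff e| ≤ (21 * (M : ℤ)) ^ 2 * (2 * (W : ℤ)) ^ (4 * u) * (2 * (W : ℤ)) ^ e) ∧
      ∀ e < 12 * u, PowerSeries.coeff e (∑ i, (a i : PowerSeries ℤ) * Φ i) = 0 := by
  obtain ⟨a, ha0, had, hab, hav⟩ := siegel_ps (k := 5) (d := 4 * u) (E := 12 * u) Φ (2 * W)
    ((21 * M) ^ 2 * (2 * W) ^ (4 * u)) (fun m => 2 * 5 * ((21 * M) ^ 2 * (2 * W) ^ (4 * u)) * M
      * (2 * W) ^ m)
    (fun x hx m => row_bound (fun i m => PowerSeries.coeff m (Φ i)) M W _ hΦ x hx m)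
    (count_lt u M W hu hM hW _ rfl)
  refine ⟨a, Function.ne_iff.1 ha0, had, fun i e => ?_, hav⟩
  refine (hab i e).trans (le_of_eq ?_)
  push_cast
  rfl

end Pool.Agent.H61.Fac
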