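import Pool.Agent.H61.Fac.Siegel

/-!
# The relaxed weighted Siegel lemma (four functions)

The rows `m < 181 u` vanish, the rows `181 u ≤ m < 250 u` are less than `(2W) ^ (5 (m - 181 u))`.
-/

namespace Pool.Agent.H61.Fac

open Polynomial Finset

lemma abs_sub_lt_of_ediv_eq (x y : ℤ) (w : ℤ) (hw : 0 < w) (h : x / w = y / w) : |x - y| < w := by
  have h1 := Int.emod_add_mul_ediv x w
  have h2 := Int.emod_add_mul_ediv y w
  have h3 := Int.emod_nonneg x hw.ne'
  have h4 := Int.emod_nonneg y hw.ne'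
  have h5 := Int.emod_lt_of_pos x hw
  have h6 := Int.emod_lt_of_pos y hw
  rw [h] at h1
  rw [abs_lt]
  constructor <;> linarith

/-- Relaxed weighted Siegel lemma: coefficients. -/
theorem cells_row {k d E : ℕ} (Φ : Fin k → ℕ → ℤ) (θ B : ℕ) (R w : ℕ → ℕ) (hw : ∀ m, 1 ≤ w m)
    (hR : ∀ x : Fin k × Fin (d + 1) → ℤ, (∀ p, |x p| ≤ B * (θ : ℤ) ^ (p.2 : ℕ)) →
      ∀ m, |row Φ x m| ≤ R m)
    (hcount : ∏ m ∈ range E, (2 * (R m / w m) + 2)
      < (∏ e ∈ range (d + 1), (B * θ ^ e + 1)) ^ k) :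
    ∃ x : Fin k × Fin (d + 1) → ℤ, x ≠ 0 ∧ (∀ p, |x p| ≤ B * (θ : ℤ) ^ (p.2 : ℕ)) ∧
      ∀ m < E, |row Φ x m| < w m := by
  classical
  set S : Finset (Fin k × Fin (d + 1) → ℤ) :=
    Fintype.piFinset fun p => Finset.Icc (0 : ℤ) ((B * θ ^ (p.2 : ℕ) : ℕ) : ℤ) with hS
  set T : Finset (Fin E → ℤ) :=
    Fintype.piFinset fun m => Finset.Icc (-((R m / w m : ℕ) : ℤ) - 1) ((R m / w m : ℕ) : ℤ) with hT
  have hScard : S.card = (∏ e ∈ range (d + 1), (B * θ ^ e + 1)) ^ k := by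
    rw [hS, Fintype.card_piFinset]
    simp only [Int.card_Icc, sub_zero]
    have h1 : ∀ p : Fin k × Fin (d + 1), (((B * θ ^ (p.2 : ℕ) : ℕ) : ℤ) + 1).toNat
        = B * θ ^ (p.2 : ℕ) + 1 := fun p => by
      rw [← Nat.cast_add_one, Int.toNat_natCast]
    simp only [h1]
    rw [Fintype.prod_prod_type]
    simp only [Finset.prod_const, Finset.card_univ, Fintype.card_fin]
    congr 1
    exact Fin.prod_univ_eq_prod_range (fun e => B * θ ^ e + 1) (d + 1)
  have hTcard : T.card = ∏ m ∈ range E, (2 * (R m / w m) + 2) := by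
    rw [hT, Fintype.card_piFinset]
    simp only [Int.card_Icc]
    rw [← Fin.prod_univ_eq_prod_range (fun m => 2 * (R m / w m) + 2) E]
    refine Finset.prod_congr rfl fun m _ => ?_
    have : (((R m / w m : ℕ) : ℤ) + 1 - (-((R m / w m : ℕ) : ℤ) - 1))
        = ((2 * (R m / w m) + 2 : ℕ) : ℤ) := by
      push_cast; ring
    rw [this, Int.toNat_natCast]
  have hmaps : ∀ x ∈ S, (fun m : Fin E => row Φ x m / (w m : ℤ)) ∈ T := by
    intro x hx
    rw [hS, Fintype.mem_piFinset] at hx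
    rw [hT, Fintype.mem_piFinset]
    intro m
    have h0 : |row Φ x m| ≤ R m := hR x (fun p => by
      have h1 := Finset.mem_Icc.1 (hx p)
      rw [abs_of_nonneg h1.1]
      refine h1.2.trans (le_of_eq ?_)
      push_cast
      rfl) m
    have hw0 : (0 : ℤ) < (w m : ℤ) := by exact_mod_cast hw m
    rw [abs_le] at h0
    rw [Finset.mem_Icc]
    have hdm := Nat.div_add_mod (R m) (w m)
    have hml := Nat.mod_lt (R m) (hw m)
    have hdm' : (w m : ℤ) * ((R m / w m : ℕ) : ℤ) + ((R m % w m : ℕ) : ℤ) = R m := by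
      exact_mod_cast hdm
    have hml' : ((R m % w m : ℕ) : ℤ) < w m := by exact_mod_cast hml
    constructor
    · rw [Int.le_ediv_iff_mul_le hw0]
      nlinarith [h0.1]
    · refine Int.le_of_lt_add_one ?_
      rw [Int.ediv_lt_iff_lt_mul hw0]
      nlinarith [h0.2]
  obtain ⟨x, hx, y, hy, hxy, hrow⟩ := Finset.exists_ne_map_eq_of_card_lt_of_maps_to
    (by rw [hScard, hTcard]; exact hcount) hmaps
  refine ⟨x - y, sub_ne_zero.2 hxy, fun p => ?_, fun m hm => ?_⟩
  · have h1 := Finset.mem_Icc.1 (Fintype.mem_piFinset.1 hx p)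
    have h2 := Finset.mem_Icc.1 (Fintype.mem_piFinset.1 hy p)
    rw [Pi.sub_apply, abs_le]
    push_cast at h1 h2 ⊢
    constructor <;> linarith [h1.1, h1.2, h2.1, h2.2]
  · rw [row_sub]
    have hw0 : (0 : ℤ) < (w m : ℤ) := by exact_mod_cast hw m
    exact abs_sub_lt_of_ediv_eq _ _ _ hw0 (congrFun hrow ⟨m, hm⟩)

/-- A coefficient vector gives polynomials. -/
lemma row_poly {k d : ℕ} (Φ : Fin k → PowerSeries ℤ) (x : Fin k × Fin (d + 1) → ℤ) (hx0 : x ≠ 0) :
    ∃ a : Fin k → ℤ[X], a ≠ 0 ∧ (∀ i, (a i).natDegree ≤ d) ∧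
      (∀ i e, (a i).coeff e = if h : e < d + 1 then x (i, ⟨e, h⟩) else 0) ∧
      ∀ m, PowerSeries.coeff m (∑ i, (a i : PowerSeries ℤ) * Φ i)
        = row (fun i m => PowerSeries.coeff m (Φ i)) x m := by
  classical
  set c : Fin k → ℕ → ℤ := fun i e => if h : e < d + 1 then x (i, ⟨e, h⟩) else 0 with hc
  have hcoef : ∀ i e, (∑ e' ∈ range (d + 1), C (c i e') * X ^ e' : ℤ[X]).coeff e = c i e := by
    intro i e
    rw [finsetSum_coeff]
    simp only [coeff_C_mul_X_pow]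
    by_cases he : e < d + 1
    · rw [Finset.sum_eq_single e (fun b _ hb => if_neg (Ne.symm hb))
        (fun h => absurd (Finset.mem_range.2 he) h), if_pos rfl]
    · rw [Finset.sum_eq_zero (fun b hb => if_neg (by have := Finset.mem_range.1 hb; omega))]
      rw [hc]
      simp only [dif_neg he]
  refine ⟨fun i => ∑ e ∈ range (d + 1), C (c i e) * X ^ e, ?_, ?_, hcoef, ?_⟩
  · intro h0
    apply hx0
    funext p
    have h1 := congrArg (fun f : ℤ[X] => f.coeff (p.2 : ℕ)) (congrFun h0 p.1)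
    simp only [hcoef, Pi.zero_apply, coeff_zero] at h1
    rw [hc] at h1
    simp only [dif_pos p.2.2] at h1
    exact h1
  · intro i
    rw [natDegree_le_iff_coeff_eq_zero]
    intro e he
    rw [hcoef, hc]
    simp only
    rw [dif_neg (by omega)]
  · intro m
    rw [map_sum]
    unfold row
    rw [Fintype.sum_prod_type]
    refine Finset.sum_congr rfl fun i _ => ?_
    rw [PowerSeries.coeff_mul, Finset.Nat.sum_antidiagonal_eq_sum_range_succ_mk]
    simp only [Polynomial.coeff_coe, hcoef]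
    have h1 : ∀ e : Fin (d + 1), (if (e : ℕ) ≤ m then x (i, e) * PowerSeries.coeff (m - e) (Φ i) else 0)
        = (fun e : ℕ => if e ≤ m then c i e * PowerSeries.coeff (m - e) (Φ i) else 0) e := by
      intro e
      simp only
      split_ifs
      · rw [hc]; simp only [dif_pos e.2]
      · rfl
    rw [Finset.sum_congr rfl fun e _ => h1 e,
      Fin.sum_univ_eq_sum_range (fun e : ℕ => if e ≤ m then c i e * PowerSeries.coeff (m - e) (Φ i) else 0)
        (d + 1)]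
    rw [← Finset.sum_filter]
    have h2 : (range (d + 1)).filter (fun e => e ≤ m) = (range (m + 1)).filter (fun e => e < d + 1) := by
      ext e
      simp only [Finset.mem_filter, Finset.mem_range]
      omega
    rw [h2, Finset.sum_filter]
    refine Finset.sum_congr rfl fun e _ => ?_
    split_ifs with h
    · rfl
    · rw [hc]; simp only [dif_neg h, zero_mul]

/-- The width of the cells. -/
def wid (u θ m : ℕ) : ℕ := θ ^ (5 * (m - 181 * u))

lemma sum_wid (u θ : ℕ) :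
    ∏ m ∈ range (250 * u), wid u θ m = θ ^ (5 * ∑ j ∈ range (69 * u), j) := by
  have h1 : 250 * u = 181 * u + 69 * u := by ring
  unfold wid
  rw [h1, Finset.prod_range_add, Finset.mul_sum, ← Finset.prod_pow_eq_pow_sum]
  have h2 : ∏ m ∈ range (181 * u), θ ^ (5 * (m - 181 * u)) = 1 := by
    refine Finset.prod_eq_one fun m hm => ?_
    have h3 : m - 181 * u = 0 := Nat.sub_eq_zero_of_le (Finset.mem_range.1 hm).le
    rw [h3, mul_zero, pow_zero]
  rw [h2, one_mul]
  refine Finset.prod_congr rfl fun m _ => ?_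
  rw [Nat.add_sub_cancel_left]

/-- The count for the relaxed lemma. -/
lemma cells_lt (u M W B : ℕ) (hu : 1 ≤ u) (hM : 1 ≤ M) (hW : 1 ≤ W)
    (hB : B = (17 * M) ^ 4 * (2 * W) ^ (96 * u)) :
    ∏ m ∈ range (250 * u), (2 * (2 * 4 * B * M * (2 * W) ^ m / wid u (2 * W) m) + 2)
      < (∏ e ∈ range (80 * u + 1), (B * (2 * W) ^ e + 1)) ^ 4 := by
  set θ := 2 * W with hθ
  have hθ1 : 1 ≤ θ := by omega
  have hB1 : 1 ≤ B := by
    rw [hB]; exact Nat.one_le_iff_ne_zero.2 (by positivity)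
  -- each factor times the width
  have hfac : ∀ m ∈ range (250 * u),
      (2 * (2 * 4 * B * M * θ ^ m / wid u θ m) + 2) * wid u θ m ≤ 17 * M * B * θ ^ m := by
    intro m hm
    have hm' := Finset.mem_range.1 hm
    have h1 := Nat.div_mul_le_self (2 * 4 * B * M * θ ^ m) (wid u θ m)
    have h2 : 2 * wid u θ m ≤ B * θ ^ m := by
      unfold wid
      have h3 : θ ^ (5 * (m - 181 * u)) ≤ θ ^ (96 * u) * θ ^ m := by
        rw [← pow_add]
        exact Nat.pow_le_pow_right hθ1 (by omega)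
      have h4 : 2 ≤ (17 * M) ^ 4 := by
        have h5 : 17 ^ 4 ≤ (17 * M) ^ 4 := Nat.pow_le_pow_left (by omega) 4
        exact le_trans (by norm_num) h5
      calc 2 * θ ^ (5 * (m - 181 * u)) ≤ (17 * M) ^ 4 * (θ ^ (96 * u) * θ ^ m) :=
            Nat.mul_le_mul h4 h3
        _ = B * θ ^ m := by rw [hB]; ring
    have h3 : B * θ ^ m ≤ M * (B * θ ^ m) := Nat.le_mul_of_pos_left _ hM
    calc (2 * (2 * 4 * B * M * θ ^ m / wid u θ m) + 2) * wid u θ m
        = 2 * ((2 * 4 * B * M * θ ^ m / wid u θ m) * wid u θ m) + 2 * wid u θ m := by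
          ring
      _ ≤ 2 * (2 * 4 * B * M * θ ^ m) + M * (B * θ ^ m) :=
          Nat.add_le_add (Nat.mul_le_mul_left _ h1) (h2.trans h3)
      _ = 17 * M * B * θ ^ m := by ring
  have hprod := Finset.prod_le_prod (fun m _ => Nat.zero_le _) hfac
  rw [Finset.prod_mul_distrib, sum_wid u, Finset.prod_mul_distrib, Finset.prod_const,
    Finset.card_range, Finset.prod_pow_eq_pow_sum] at hprod
  set L := ∏ m ∈ range (250 * u), (2 * (2 * 4 * B * M * θ ^ m / wid u θ m) + 2) with hL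
  have h2 : B ^ (80 * u + 1) * θ ^ (∑ e ∈ range (80 * u + 1), e)
      < ∏ e ∈ range (80 * u + 1), (B * θ ^ e + 1) := by
    rw [← Finset.prod_pow_eq_pow_sum]
    have h3 : B ^ (80 * u + 1) = ∏ _e ∈ range (80 * u + 1), B := by
      rw [Finset.prod_const, Finset.card_range]
    rw [h3, ← Finset.prod_mul_distrib]
    refine Finset.prod_lt_prod_of_nonempty (fun e _ => by positivity) (fun e _ => by omega) ?_
    exact ⟨0, Finset.mem_range.2 (by omega)⟩
  refine lt_of_le_of_lt ?_ (Nat.pow_lt_pow_left h2 (by norm_num))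
  set s1 := ∑ m ∈ range (250 * u), m with hs1
  set s2 := ∑ j ∈ range (69 * u), j with hs2
  set s3 := ∑ e ∈ range (80 * u + 1), e with hs3
  have e1 : s1 * 2 = 250 * u * (250 * u - 1) := Finset.sum_range_id_mul_two _
  have e2 : s2 * 2 = 69 * u * (69 * u - 1) := Finset.sum_range_id_mul_two _
  have e3 : s3 * 2 = (80 * u + 1) * (80 * u + 1 - 1) := Finset.sum_range_id_mul_two _
  obtain ⟨v, rfl⟩ : ∃ v, u = v + 1 := ⟨u - 1, by omega⟩
  have e1' : 2 * s1 = 62500 * (v * v) + 124750 * v + 62250 := by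
    rw [mul_comm, e1]
    have : 250 * (v + 1) - 1 = 250 * v + 249 := by omega
    rw [this]; ring
  have e2' : 2 * s2 = 4761 * (v * v) + 9453 * v + 4692 := by
    rw [mul_comm, e2]
    have : 69 * (v + 1) - 1 = 69 * v + 68 := by omega
    rw [this]; ring
  have e3' : 2 * s3 = 6400 * (v * v) + 12880 * v + 6480 := by
    rw [mul_comm, e3]
    have : 80 * (v + 1) + 1 - 1 = 80 * v + 80 := by omega
    rw [this]; ring
  have hkey : (17 * M) ^ (250 * (v + 1)) * (θ ^ s1)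
      ≤ B ^ (70 * (v + 1) + 4) * θ ^ (s3 * 4 + 5 * s2) := by
    rw [hB, mul_pow ((17 * M) ^ 4), ← pow_mul, ← pow_mul,
      mul_assoc ((17 * M) ^ (4 * (70 * (v + 1) + 4))), ← pow_add]
    refine Nat.mul_le_mul (Nat.pow_le_pow_right (by omega) (by omega))
      (Nat.pow_le_pow_right hθ1 ?_)
    have a3 : 96 * (v + 1) * (70 * (v + 1) + 4) = 6720 * (v * v) + 13824 * v + 7104 := by ring
    rw [a3]
    generalize v * v = q at *
    omega
  have hmain : L * θ ^ (5 * s2)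
      ≤ (B ^ (80 * (v + 1) + 1) * θ ^ s3) ^ 4 * θ ^ (5 * s2) := by
    calc L * θ ^ (5 * s2) ≤ (17 * M * B) ^ (250 * (v + 1)) * θ ^ s1 := hprod
      _ = B ^ (250 * (v + 1)) * ((17 * M) ^ (250 * (v + 1)) * θ ^ s1) := by
          rw [mul_pow (17 * M)]; ring
      _ ≤ B ^ (250 * (v + 1)) * (B ^ (70 * (v + 1) + 4) * θ ^ (s3 * 4 + 5 * s2)) :=
          Nat.mul_le_mul_left _ hkey
      _ = B ^ (250 * (v + 1) + (70 * (v + 1) + 4)) * θ ^ (s3 * 4 + 5 * s2) := by
          rw [pow_add]; ring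
      _ = (B ^ (80 * (v + 1) + 1) * θ ^ s3) ^ 4 * θ ^ (5 * s2) := by
          rw [mul_pow (B ^ (80 * (v + 1) + 1)), ← pow_mul, ← pow_mul, mul_assoc, ← pow_add]
          congr 2
          ring
  exact Nat.le_of_mul_le_mul_right hmain (by positivity)

/-- (A) weighted Siegel lemma: rows `< 181u` vanish, rows `< 250u` are small -/
theorem siegel4 (u M W : ℕ) (hu : 1 ≤ u) (hM : 1 ≤ M) (hW : 1 ≤ W) (Φ : Fin 4 → PowerSeries ℤ)
    (hΦ : ∀ i e, |PowerSeries.coeff e (Φ i)| ≤ (M : ℤ) * (W : ℤ) ^ e) :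
    ∃ a : Fin 4 → ℤ[X], (∃ i, a i ≠ 0) ∧ (∀ i, (a i).natDegree ≤ 80 * u) ∧
      (∀ i e, |(a i).coeff e| ≤ (17 * (M : ℤ)) ^ 4 * (2 * (W : ℤ)) ^ (96 * u) * (2 * (W : ℤ)) ^ e) ∧
      ∀ e < 250 * u, |PowerSeries.coeff e (∑ i, (a i : PowerSeries ℤ) * Φ i)|
        < (2 * (W : ℤ)) ^ (5 * (e - 181 * u)) := by
  have hR := fun (x : Fin 4 × Fin (80 * u + 1) → ℤ)
    (hx : ∀ p, |x p| ≤ (((17 * M) ^ 4 * (2 * W) ^ (96 * u) : ℕ) : ℤ)
      * ((2 * W : ℕ) : ℤ) ^ (p.2 : ℕ)) (m : ℕ) =>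
      row_bound (fun i m => PowerSeries.coeff m (Φ i)) M W _ hΦ x hx m
  have hw1 : ∀ m, 1 ≤ wid u (2 * W) m := fun m => Nat.one_le_pow _ _ (by omega)
  obtain ⟨x, hx0, hx, hrow⟩ := cells_row (k := 4) (d := 80 * u) (E := 250 * u)
    (fun i m => PowerSeries.coeff m (Φ i)) (2 * W) ((17 * M) ^ 4 * (2 * W) ^ (96 * u))
    (fun m => 2 * 4 * ((17 * M) ^ 4 * (2 * W) ^ (96 * u)) * M * (2 * W) ^ m) (wid u (2 * W))
    hw1 hR (cells_lt u M W _ hu hM hW rfl)
  obtain ⟨a, ha0, had, hac, har⟩ := row_poly Φ x hx0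
  refine ⟨a, Function.ne_iff.1 ha0, had, fun i e => ?_, fun e he => ?_⟩
  · rw [hac]
    split_ifs with h
    · refine (hx (i, ⟨e, h⟩)).trans (le_of_eq ?_)
      push_cast
      rfl
    · rw [abs_zero]; positivity
  · rw [har]
    refine (hrow e he).trans_le (le_of_eq ?_)
    unfold wid
    push_cast
    rfl

end Pool.Agent.H61.Fac
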