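import Pool.Agent.H61.PF.Bad
import Pool.Agent.H78.Fac.Op

namespace Pool.Agent.H61.Fac

open Finset Polynomial Pool.H78.Fac Pool.Agent.H61.PF

lemma LL_iter_eq {k : ℕ} (r h : ℕ) (m : Fin k → ℕ) (a : Fin k → ℚ[X]) (s : ℕ) (i : Fin k) :
    (LL ℚ r h (m i))^[s] (a i) = ((nab (DD ℚ r h) (fun i => TT ℚ r h (m i)))^[s] a) i := by
  induction s with
  | zero => rfl
  | succ s ih =>
    rw [Function.iterate_succ_apply', Function.iterate_succ_apply', ih]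
    rfl

lemma natDegree_fac_le (r j : ℕ) : (fac ℚ r j).natDegree ≤ 1 := by
  unfold fac
  refine (natDegree_add_le _ _).trans (max_le (by simp) ?_)
  exact (natDegree_C_mul_le _ _).trans natDegree_X_le

lemma natDegree_DD_le (r h : ℕ) : (DD ℚ r h).natDegree ≤ h := by
  unfold DD
  refine (natDegree_prod_le _ _).trans ?_
  refine (Finset.sum_le_card_nsmul _ _ 1 fun j _ => natDegree_fac_le r j).trans ?_
  simp

lemma natDegree_TT_le (r h m : ℕ) : (TT ℚ r h m).natDegree ≤ h := by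
  unfold TT
  refine natDegree_sum_le_of_forall_le _ _ fun j _ => ?_
  refine natDegree_mul_le.trans ?_
  rw [natDegree_C, zero_add]
  refine (natDegree_prod_le _ _).trans ?_
  refine (Finset.sum_le_card_nsmul _ _ 1 fun j _ => natDegree_fac_le r j).trans ?_
  rw [smul_eq_mul, mul_one]
  exact (Finset.card_le_card (Finset.erase_subset _ _)).trans (by simp)

/-- zero estimate for any number of functions -/
theorem zero_estimate_gen {k r h d s₀ : ℕ} (hr : 2 ≤ r) (m : Fin k → ℕ)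
    (hm : Function.Injective m) (hmh : ∀ i, m i ≤ h) (a : Fin k → ℚ[X]) (ha : ∃ i, a i ≠ 0)
    (hd : ∀ i, (a i).natDegree ≤ d) (Y : Finset ℚ)
    (hY : ∀ y ∈ Y, 0 ≤ y ∧ ∃ ξ : Fin k → ℚ, (∀ i, ξ i ≠ 0) ∧
      ∀ s < s₀, ∑ i, ξ i * ((LL ℚ r h (m i))^[s] (a i)).eval y = 0) :
    Y.card * (s₀ - (k - 1)) ≤ k * (d + (k - 1) * h) := by
  have hk : 0 < k := by
    obtain ⟨i, _⟩ := ha
    exact lt_of_le_of_lt (Nat.zero_le _) i.2
  rcases Nat.lt_or_ge s₀ k with hs | hs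
  · have : s₀ - (k - 1) = 0 := by omega
    rw [this, mul_zero]
    exact Nat.zero_le _
  · have h1 : s₀ - (k - 1) = s₀ + 1 - k := by omega
    rw [h1]
    refine bad_count (DD ℚ r h) (fun i => TT ℚ r h (m i)) a ?_ ?_ d h s₀ (natDegree_DD_le r h)
      (fun i => natDegree_TT_le r h (m i)) hd Y ?_ hs
    · intro i j hij p q hp hq h0
      refine pair_ne hr (fun h => hij (hm h)) (hmh i) (hmh j) hp hq ?_
      simp only [LL]
      linear_combination h0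
    · obtain ⟨i, hi⟩ := ha
      exact fun h => hi (congrFun h i)
    · intro y hy
      obtain ⟨hy0, ξ, hξ, hs'⟩ := hY y hy
      refine ⟨(eval_DD_pos r h hy0).ne', ξ, hξ, fun s hs'' => ?_⟩
      rw [← hs' s hs'']
      refine Finset.sum_congr rfl fun i _ => ?_
      rw [LL_iter_eq, mul_comm]

/-- (B') zero estimate for four functions -/
theorem zero_estimate4 {r h d s₀ : ℕ} (hr : 2 ≤ r) (m : Fin 4 → ℕ) (hm : Function.Injective m)
    (hmh : ∀ i, m i ≤ h) (a : Fin 4 → ℚ[X]) (ha : ∃ i, a i ≠ 0) (hd : ∀ i, (a i).natDegree ≤ d)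
    (Y : Finset ℚ)
    (hY : ∀ y ∈ Y, 0 ≤ y ∧ ∃ ξ : Fin 4 → ℚ, (∀ i, ξ i ≠ 0) ∧
      ∀ s < s₀, ∑ i, ξ i * ((LL ℚ r h (m i))^[s] (a i)).eval y = 0) :
    Y.card * (s₀ - 3) ≤ 4 * (d + 4 * h) := by
  have h1 : Y.card * (s₀ - 3) ≤ 4 * (d + 3 * h) := by
    simpa using zero_estimate_gen hr m hm hmh a ha hd Y hY
  omega

/-- (B) zero estimate -/
theorem zero_estimate {r h d s₀ : ℕ} (hr : 2 ≤ r) (m : Fin 5 → ℕ) (hm : Function.Injective m)
    (hmh : ∀ i, m i ≤ h) (a : Fin 5 → ℚ[X]) (ha : ∃ i, a i ≠ 0) (hd : ∀ i, (a i).natDegree ≤ d)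
    (Y : Finset ℚ)
    (hY : ∀ y ∈ Y, 0 ≤ y ∧ ∃ ξ : Fin 5 → ℚ, (∀ i, ξ i ≠ 0) ∧
      ∀ s < s₀, ∑ i, ξ i * ((LL ℚ r h (m i))^[s] (a i)).eval y = 0) :
    Y.card * (s₀ - 4) ≤ 5 * (d + 4 * h) := by
  simpa using zero_estimate_gen hr m hm hmh a ha hd Y hY

end Pool.Agent.H61.Fac
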